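import Pool.Agent.Work.MP_6985d1_gg.Defs

/-!
# Words, sections, germ counts, programs: common definitions and small lemmas
-/

set_option autoImplicit false

namespace GrigGrowth

open Equiv

/-! ## Words in the letters -/

/-- The permutation of a word (the last letter acts first). -/
def W (w : List L) : Perm (List Bool) := (w.map gen).prod

@[simp] theorem W_nil : W [] = 1 := rfl

@[simp] theorem W_cons (s : L) (w : List L) : W (s :: w) = gen s * W w := rfl

@[simp] theorem W_append (u w : List L) : W (u ++ w) = W u * W w := by
  simp [W]

@[simp] theorem gen_apply (s : L) (v : List Bool) : gen s v = act s v := rfl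

@[simp] theorem gen_mul_self (s : L) : gen s * gen s = 1 := by
  ext1 v; simp [act_act]

@[simp] theorem gen_inv (s : L) : (gen s)⁻¹ = gen s := by
  rw [inv_eq_iff_mul_eq_one]; simp

theorem W_reverse (w : List L) : W w.reverse = (W w)⁻¹ := by
  induction w with
  | nil => simp
  | cons s w ih => simp [ih]

@[simp] theorem act_nil (s : L) : act s [] = [] := by cases s <;> rfl

@[simp] theorem act_length (s : L) (v : List Bool) : (act s v).length = v.length := by
  induction v generalizing s with
  | nil => simp
  | cons x v ih => cases s <;> cases x <;> simp [act, ih]

@[simp] theorem W_length (w : List L) (v : List Bool) : (W w v).length = v.length := by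
  induction w with
  | nil => simp
  | cons s w ih => simp [ih]

@[simp] theorem W_apply_nil (w : List L) : W w [] = [] := by
  induction w with
  | nil => simp
  | cons s w ih => simp [ih]

/-! ## Sections -/

/-- The section of a letter at a first letter, as a word. -/
def sl : L → Bool → List L
  | .a, _ => []
  | .b, false => [.a]
  | .b, true => [.c]
  | .c, false => [.a]
  | .c, true => [.d]
  | .d, false => []
  | .d, true => [.b]

/-- The action on the first letter. -/
def fb : L → Bool → Bool
  | .a, x => !x
  | .b, x => x
  | .c, x => x
  | .d, x => x

theorem act_cons (s : L) (x : Bool) (v : List Bool) : act s (x :: v) = fb s x :: W (sl s x) v := by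
  cases s <;> cases x <;> simp [act, fb, sl]

/-- The action of a word on the first letter. -/
def fbw : List L → Bool → Bool
  | [], x => x
  | s :: w, x => fb s (fbw w x)

/-- The section of a word at a first letter. -/
def sec : List L → Bool → List L
  | [], _ => []
  | s :: w, x => sl s (fbw w x) ++ sec w x

theorem W_apply_cons (w : List L) (x : Bool) (v : List Bool) :
    W w (x :: v) = fbw w x :: W (sec w x) v := by
  induction w with
  | nil => simp [fbw, sec]
  | cons s w ih => simp [fbw, sec, ih, act_cons]

/-! ## Characters and germ counts -/

/-- The character of the Klein group `{1, b, c, d}` with kernel `{1, y}`, extended by `a ↦ 0`. -/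
def chi (y s : L) : ZMod 2 := if s = .a ∨ s = y then 0 else 1

/-- `ph y w v`: the number modulo 2 of the letters of `w` outside `{a, y}` that are applied while
the current position is `11...1`; the starting position is `v`. -/
def ph (y : L) : List L → List Bool → ZMod 2
  | [], _ => 0
  | s :: w, v => ph y w v + if W w v = List.replicate v.length true then chi y s else 0

theorem ph_append (y : L) (u w : List L) (v : List Bool) :
    ph y (u ++ w) v = ph y u (W w v) + ph y w v := by
  induction u with
  | nil => simp [ph]
  | cons s u ih => simp [ph, ih, add_comm, add_left_comm]

/-! ## Lifts -/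

/-- `b → c → d → b`. -/
def sig : L → L
  | .a => .a
  | .b => .c
  | .c => .d
  | .d => .b

/-- The substitution on syllables; the letter `y` stands for the syllable `a y`. -/
def zl : L → List L
  | .a => []
  | .b => [.b, .d, .c]
  | .c => [.b, .b]
  | .d => [.c, .c]

def zeta (u : List L) : List L := u.flatMap zl

/-- The word of a list of syllables. -/
def wd (u : List L) : List L := u.flatMap fun y => [.a, y]

/-- The flip of level `j`. -/
def fl (j : ℕ) : List L := if j = 0 then [.a] else wd (zeta^[j] [if j % 3 = 2 then .d else .c])

/-! ## Vertices -/

/-- The vertices of level `D`. -/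
noncomputable def vs (D : ℕ) : Finset (List Bool) := (List.finite_length_eq Bool D).toFinset

@[simp] theorem mem_vs {D : ℕ} {v : List Bool} : v ∈ vs D ↔ v.length = D := by
  simp [vs]

/-- The vertex `11...1` of level `D`. -/
def oo (D : ℕ) : List Bool := List.replicate D true

@[simp] theorem oo_length (D : ℕ) : (oo D).length = D := by simp [oo]

/-! ## Averages -/

/-- The average of `f` over the random products of the words of the list (the first word of the list
is applied first; every word is used with probability 1/2). -/
noncomputable def Kop : List (List L) → (List Bool → ℝ) → List Bool → ℝ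
  | [], f => f
  | u :: P, f => fun v => (Kop P f v + Kop P f (W u v)) / 2

/-- `1` if the germ count of `u` at `v` is odd. -/
noncomputable def rr (u : List L) (v : List Bool) : ℝ := if ph .b u v = 0 then 0 else 1

/-- An upper bound for the probability that the germ count of the random product is odd. -/
noncomputable def eh : List (List L) → List Bool → ℝ
  | [], _ => 0
  | u :: P, v => (eh P v + eh P (W u v)) / 2 + rr u v

/-! ## Programs -/

/-- The word of an instruction: `none` is a slot, with the word `c`; `some j` is the flip of level
`j`. -/
def iw : Option ℕ → List L
  | none => [.c]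
  | some j => fl j

/-- The number of slots. -/
def slots (P : List (Option ℕ)) : ℕ := P.count none

/-- The sum over the slots of the average of `f` over the remaining product, started at `11...1`. -/
noncomputable def TT (D : ℕ) : List (Option ℕ) → (List Bool → ℝ) → ℝ
  | [], _ => 0
  | none :: P, f => Kop (P.map iw) f (oo D) + TT D P f
  | some _ :: P, f => TT D P f

/-- The sum over the slots of the bound for the probability of an error. -/
noncomputable def Err (D : ℕ) : List (Option ℕ) → ℝ
  | [] => 0
  | none :: P => eh (P.map iw) (oo D) + Err D P
  | some _ :: P => Err D P

/-- The number of bad vertices of the instructions of a program. -/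
noncomputable def Rsum (D : ℕ) (P : List (Option ℕ)) : ℝ :=
  (P.map fun i => ∑ v ∈ vs D, rr (iw i) v).sum

/-- The word of a program for given bits. -/
def U : List (Option ℕ) → List Bool → List L
  | [], _ => []
  | _ :: _, [] => []
  | i :: P, x :: e => U P e ++ (if x then iw i else [])

/-- The error bits of the slots. -/
def er (D : ℕ) : List (Option ℕ) → List Bool → List Bool
  | [], _ => []
  | _ :: _, [] => []
  | none :: P, _ :: e => decide (ph .b (U P e) (oo D) ≠ 0) :: er D P e
  | some _ :: P, _ :: e => er D P e

/-- The bits which do not belong to slots. -/
def ns : List (Option ℕ) → List Bool → List Bool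
  | [], _ => []
  | _ :: _, [] => []
  | none :: P, _ :: e => ns P e
  | some _ :: P, x :: e => x :: ns P e

/-- The group elements given by a program. -/
noncomputable def vals (P : List (Option ℕ)) : Finset (Perm (List Bool)) := by
  classical exact (vs P.length).image fun e => W (U P e)

/-! ## The program -/

/-- Upper end of the flips of the block number `m`. -/
def ftop (M m : ℕ) : ℕ := m + 3 * ((M - m) / 24) + 24

/-- Upper end of the special flips (levels divisible by 3) of the block number `m`. -/
def fspec (M m : ℕ) : ℕ := m - (3 * ((M - m) / 24) + 13)

/-- The levels of the block number `m`, in increasing order. -/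
def JJ (M m : ℕ) : List ℕ :=
  (List.range (ftop M m + 1)).filter fun j => j = 0 ∨ ¬ 3 ∣ j ∨ j ≤ fspec M m

/-- The program with `2 ^ m` slots. -/
def prog (M : ℕ) : ℕ → List (Option ℕ)
  | 0 => [none]
  | m + 1 => prog M m ++ (JJ M m).map some ++ prog M m

/-- The depth at which we observe. -/
def dep (M : ℕ) : ℕ := 2 * M + 30

end GrigGrowth
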