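import Mathlib

/-!
# The first Grigorchuk group: definitions used in the statement
-/

set_option autoImplicit false

namespace GrigGrowth

/-- The four letters. -/
inductive L : Type
  | a | b | c | d
  deriving DecidableEq

/-- The action of the four generators on finite binary words. -/
def act : L → List Bool → List Bool
  | _, [] => []
  | .a, x :: w => (!x) :: w
  | .b, false :: w => false :: act .a w
  | .b, true :: w => true :: act .c w
  | .c, false :: w => false :: act .a w
  | .c, true :: w => true :: act .d w
  | .d, false :: w => false :: w
  | .d, true :: w => true :: act .b w

theorem act_act (s : L) (w : List Bool) : act s (act s w) = w := by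
  induction w generalizing s with
  | nil => cases s <;> simp [act]
  | cons x w ih => cases s <;> cases x <;> simp [act, ih]

/-- The generators as permutations of the set of finite binary words. -/
def gen (s : L) : Equiv.Perm (List Bool) := ⟨act s, act s, act_act s, act_act s⟩

/-- The first Grigorchuk group, generated by `a`, `b`, `c`, `d`. -/
def Grig : Subgroup (Equiv.Perm (List Bool)) := Subgroup.closure (Set.range gen)

/-- The growth function of a group with respect to a set `S`: the number of elements which are
products of at most `n` elements of `S`. -/
noncomputable def growth {G : Type} [Group G] (S : Set G) (n : ℕ) : ℕ :=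
  Nat.card {g : G // ∃ l : List G, l.length ≤ n ∧ (∀ x ∈ l, x ∈ S) ∧ l.prod = g}

/-- `f ≼ g`: there is `C ≥ 1` with `f n ≤ g (C n)` for all `n`. -/
def Preceq (f g : ℕ → ℕ) : Prop := ∃ C : ℕ, 1 ≤ C ∧ ∀ n, f n ≤ g (C * n)

end GrigGrowth
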