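import Pool.Agent.Work.MP_6985d1_gg.Base

/-!
# The growth of the first Grigorchuk group: exact statements of the blocks
-/

set_option autoImplicit false

namespace GrigGrowth

/-- The positive root. -/
def IsRoot (l : ℝ) : Prop := 0 < l ∧ l ^ 3 = l ^ 2 + 2 * l + 4

/-- The ball of radius `n` with respect to the four letters. -/
def ball (n : ℕ) : Set (Equiv.Perm (List Bool)) := {g | ∃ w : List L, w.length ≤ n ∧ W w = g}

/-! ## Germ counts -/

/-- Germ counts of a word and of its sections. -/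
def Stmt_PHSEC : Prop := ∀ (y : L), y ≠ .a → ∀ (w : List L) (x : Bool) (v : List Bool),
  ph y w (x :: v) = ph (sig y) (sec w x) v

/-- The germ count depends only on the group element. -/
def Stmt_PHW : Prop := ∀ (y : L), y ≠ .a → ∀ w w' : List L, W w = W w' → ∀ v, ph y w v = ph y w' v

/-! ## Flips -/

/-- The lift: for an even number of syllables `a b`, the word of `zeta u` fixes the first letter and
acts as `a u a` below `0` and as `u` below `1`. -/
def Stmt_LIFT : Prop := ∀ u : List L, (∀ y ∈ u, y ≠ .a) → Even (u.count .b) →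
  (∀ v, W (wd (zeta u)) (false :: v) = false :: (gen .a * W (wd u) * gen .a) v) ∧
    ∀ v, W (wd (zeta u)) (true :: v) = true :: W (wd u) v

/-- The word `fl j` keeps the first `j` letters and changes the letter number `j`. -/
def Stmt_FLIP : Prop := ∀ (j : ℕ) (v : List Bool), j < v.length →
  (W (fl j) v).take j = v.take j ∧ (W (fl j) v)[j]? = v[j]?.map (fun x => !x)

/-- The flips of level `0` and of the levels not divisible by 3 have no germs outside `b`. -/
def Stmt_PHN : Prop := ∀ j, (j = 0 ∨ ¬ 3 ∣ j) → ∀ v : List Bool, j < v.length →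
  ph .b (fl j) v = 0

/-- Every flip has at most `2 ^ j` bad vertices. -/
def Stmt_PHS : Prop := ∀ j D : ℕ, j < D → ∑ v ∈ vs D, rr (fl j) v ≤ 2 ^ j

/-! ## The root and the lengths of the flips -/

def Stmt_ROOT : Prop := ∃ l : ℝ, IsRoot l ∧ (∀ l', IsRoot l' → l' = l) ∧ 2.46 < l ∧ l < 2.47

def Stmt_LEN : Prop := ∀ l : ℝ, IsRoot l → ∀ j, ((fl j).length : ℝ) ≤ 4 * l ^ j

/-! ## Smoothing and errors -/

/-- Smoothing. -/
def Stmt_SMO : Prop := ∀ (D : ℕ) (J : List ℕ), J.Pairwise (· < ·) → (∀ j ∈ J, j < D) →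
  ∀ f : List Bool → ℝ, (∀ v, 0 ≤ f v) → ∀ v ∈ vs D,
    Kop (J.map fl) f v ≤ (∑ v' ∈ vs D, f v') / 2 ^ J.length

/-- The recursion. -/
def Stmt_REC : Prop := ∀ D M m : ℕ, (∀ j ∈ JJ M m, j < D) → ∀ S : ℝ, 0 ≤ S →
  (∀ f : List Bool → ℝ, (∀ v, 0 ≤ f v) → TT D (prog M m) f ≤ S * ∑ v ∈ vs D, f v) →
  (∀ f : List Bool → ℝ, (∀ v, 0 ≤ f v) → TT D (prog M (m + 1)) f ≤
      (S + 2 ^ m / 2 ^ (JJ M m).length) * ∑ v ∈ vs D, f v) ∧
    Err D (prog M (m + 1)) ≤ 2 * Err D (prog M m) + S * Rsum D ((JJ M m).map some) +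
      2 ^ m / 2 ^ (JJ M m).length * Rsum D (prog M m) ∧
    Rsum D (prog M (m + 1)) = 2 * Rsum D (prog M m) + Rsum D ((JJ M m).map some)

/-- The number of levels of a block. -/
def Stmt_JLEN : Prop := ∀ M m : ℕ, m < M → m + (M - m) / 24 + 12 ≤ (JJ M m).length

/-- The number of bad vertices of a block. -/
def Stmt_JSPEC : Prop := ∀ D M m : ℕ, m < M → dep M ≤ D →
  Rsum D ((JJ M m).map some) * 2 ^ (3 * ((M - m) / 24) + 12) ≤ 2 ^ m

/-- The levels of a block are small. -/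
def Stmt_JLT : Prop := ∀ M m : ℕ, m < M → ∀ j ∈ JJ M m, j ≤ m + (M - m) / 8 + 24 ∧ j < dep M

def Stmt_GEO : Prop := ∀ M : ℕ, ∑ m ∈ Finset.range M, ((1 : ℝ) / 2) ^ ((M - m) / 24) ≤ 48

/-- The total error. -/
def Stmt_ERR : Prop := ∀ M : ℕ, Err (dep M) (prog M M) ≤ 2 ^ M / 32

/-! ## Counting -/

/-- The number of errors, summed over all bits. -/
def Stmt_CNT1 : Prop := ∀ (D : ℕ) (P : List (Option ℕ)),
  ∑ e ∈ vs P.length, ((er D P e).count true : ℝ) ≤ 2 ^ P.length * Err D P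

/-- Decoding. -/
def Stmt_INJ : Prop := ∀ (D : ℕ) (P : List (Option ℕ)) (e e' : List Bool),
  e.length = P.length → e'.length = P.length → W (U P e) = W (U P e') →
  er D P e = er D P e' → ns P e = ns P e' → e = e'

/-- Counting. -/
def Stmt_CNT2 : Prop := ∀ (D : ℕ) (P : List (Option ℕ)) (K : ℕ),
  2 * ∑ e ∈ vs P.length, (er D P e).count true ≤ K * 2 ^ P.length →
  2 ^ slots P ≤ 2 * (vals P).card * ((vs (slots P)).filter fun e => e.count true ≤ K).card

/-- Few errors. -/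
def Stmt_BIN : Prop := ∀ k : ℕ, ((vs (16 * k)).filter fun e => e.count true ≤ k).card ≤ 2 ^ (6 * k)

/-- The lengths of the words of the program. -/
def Stmt_PLEN : Prop := ∀ l : ℝ, IsRoot l → ∃ C : ℝ, ∀ (M : ℕ) (e : List Bool),
  ((U (prog M M) e).length : ℝ) ≤ C * l ^ M

/-- The lower bound. -/
def Stmt_LOW : Prop := ∀ l : ℝ, IsRoot l → ∃ C : ℝ, ∀ M : ℕ, 4 ≤ M → ∀ n : ℕ, C * l ^ M ≤ n →
  2 ^ 2 ^ (M - 1) ≤ (ball n).ncard

/-! ## The upper bound -/

def Stmt_BALLFIN : Prop := ∀ n : ℕ, (ball n).Finite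

/-- The upper bound. -/
def Stmt_UP : Prop := ∀ l : ℝ, IsRoot l → ∃ C : ℕ, ∀ k n : ℕ, (n : ℝ) ≤ l ^ k →
  (ball n).ncard ≤ 2 ^ (C * 2 ^ k)

/-! ## The final theorem -/

/-- The growth function. -/
noncomputable def ff (l : ℝ) (n : ℕ) : ℕ := ⌊Real.exp ((n : ℝ) ^ (Real.log 2 / Real.log l))⌋₊

/-- The growth with respect to the four letters. -/
def Stmt_FIN0 : Prop := ∀ l : ℝ, IsRoot l →
  Preceq (fun n => (ball n).ncard) (ff l) ∧ Preceq (ff l) (fun n => (ball n).ncard)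

/-- Change of generators. -/
def Stmt_GENS : Prop := ∀ S : Set Grig, S.Finite → (∀ x ∈ S, x⁻¹ ∈ S) → Subgroup.closure S = ⊤ →
  Preceq (growth S) (fun n => (ball n).ncard) ∧ Preceq (fun n => (ball n).ncard) (growth S)

end GrigGrowth
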